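import Pool.Agent.TH194.BE.Torus

set_option autoImplicit false

/-! # A real-analytic diffeomorphism of the two-dimensional torus with `h(ρ) < ∫ χ₊ dρ` for every
invariant probability measure `ρ` -/

open MeasureTheory Set Filter Topology
open scoped ENNReal NNReal ContDiff

namespace Pool.Agent.Results.MP_794bd6_an.NoEqualityMeasure

open Pool.Agent.TH194.BE

/-- There are a real-analytic diffeomorphism `f` of the torus `(ℝ/2πℤ)²` (with lift `F` to the plane,
whose inverse `G` is a lift of the inverse of `f`) and a constant `c > 0` such that every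
`f`-invariant Borel probability measure `ρ` has `h(ρ) = 0` and `∫ χ₊ dρ ≥ c`. -/
theorem result : ∃ (f : T2 ≃ₜ T2) (F G : ℝ × ℝ → ℝ × ℝ),
    ContDiff ℝ ω F ∧ ContDiff ℝ ω G ∧ (∀ p, G (F p) = p) ∧ (∀ p, F (G p) = p) ∧
    (∀ p, f (mk p) = mk (F p)) ∧ (∀ p, f.symm (mk p) = mk (G p)) ∧
    ∃ c : ℝ≥0∞, 0 < c ∧ ∀ ρ : Measure T2, IsProbabilityMeasure ρ → MeasurePreserving f ρ ρ →
      entropy ρ f = 0 ∧ c ≤ ∫⁻ x, chi F x ∂ρ := by
  obtain ⟨G, hG, h1, h2⟩ := exists_inverse
  have hK := equivariant_inverse F G F_tr h1 h2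
  let f : T2 ≃ₜ T2 := homeo F G F_tr hK h1 h2 F_contDiff.continuous hG.continuous
  have hf : ∀ p, f (mk p) = mk (F p) := fun p => ind_mk F F_tr p
  refine ⟨f, F, G, F_contDiff, hG, h1, h2, hf, fun p => ind_mk G hK p,
    ENNReal.ofReal (Real.log (135 / 128)), ?_, fun ρ hρ hinv => ?_⟩
  · rw [ENNReal.ofReal_pos]
    exact Real.log_pos (by norm_num)
  · have hae := ae_fixed ρ f hinv hf
    constructor
    · apply entropy_zero
      filter_upwards [hae] with x hx
      have h3 : F (rep x) = rep x := by
        rcases hx with h | h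
        · exact F_corner _ h.1 h.2
        · exact F_center _ h.1 h.2
      calc f x = f (mk (rep x)) := by rw [mk_rep]
        _ = mk (F (rep x)) := hf _
        _ = x := by rw [h3, mk_rep]
    · calc ENNReal.ofReal (Real.log (135 / 128)) =
            ∫⁻ _, ENNReal.ofReal (Real.log (135 / 128)) ∂ρ := by
            rw [lintegral_const, measure_univ, mul_one]
        _ ≤ ∫⁻ x, chi F x ∂ρ := by
            apply lintegral_mono_ae
            filter_upwards [hae] with x hx
            rcases hx with h | h
            · exact chi_ge x (growth_corner x h.1 h.2)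
            · exact chi_ge x (growth_center x h.1 h.2)

end Pool.Agent.Results.MP_794bd6_an.NoEqualityMeasure
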